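import Mathlib

open Set Filter Topology

namespace Pool.Agent.Results.MP_1c25d9_gt.RollingFails

/-- Ambient Minkowski space `ℝ^{1,2}`; the coordinate `X 0` is the time-like one. -/
abbrev V := Fin 3 → ℝ

/-- The Lorentz form `X₁Y₁ + X₂Y₂ - X₀Y₀`. -/
def mink (X Y : V) : ℝ := X 1 * Y 1 + X 2 * Y 2 - X 0 * Y 0

/-- The hyperbolic plane (constant curvature `-1`), as the upper sheet of the unit hyperboloid;
its Riemannian metric is the restriction of `mink` to the tangent spaces `{v | mink v X = 0}`. -/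
abbrev H2 : Type := {X : V // mink X X = -1 ∧ 0 < X 0}

/-- The Riemannian distance of the hyperbolic plane. -/
noncomputable def hdist (X Y : V) : ℝ := Real.arcosh (-(mink X Y))

/-- The exponential map: `exp_X (r ν)` for a unit tangent vector `ν` at `X`. -/
noncomputable def hexp (X ν : V) (r : ℝ) : V := Real.cosh r • X + Real.sinh r • ν

/-- Closed geodesic ball. -/
def hball (Q : V) (R : ℝ) : Set H2 := {Y | hdist Q Y ≤ R}

/-- `D` is (geodesically) convex: any two of its points are joined by a minimizing geodesic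
inside `D` (parametrised by arc length). -/
def GeodConvex (D : Set H2) : Prop :=
  ∀ X ∈ D, ∀ Y ∈ D, ∃ σ : ℝ → H2, σ 0 = X ∧ σ (hdist X Y) = Y ∧
    (∀ s ∈ Icc 0 (hdist X Y), σ s ∈ D) ∧
    ∀ s ∈ Icc 0 (hdist X Y), ∀ t ∈ Icc 0 (hdist X Y), hdist (σ s) (σ t) = |s - t|

/-- `ν` is the inward unit normal of `D` at the boundary point `γ t`. -/
structure IsInwardNormal (D : Set H2) (γ : ℝ → V) (t : ℝ) (ν : V) : Prop where
  tangent : mink ν (γ t) = 0
  normal : mink ν (deriv γ t) = 0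
  unit : mink ν ν = 1
  inward : ∀ᶠ r in 𝓝[>] (0:ℝ), ∃ Y ∈ interior D, (Y : V) = hexp (γ t) ν r

/-- `D` is a domain of `H²` whose boundary is the smooth regular simple closed curve `γ`
(in particular the boundary is connected and smooth). -/
structure IsSmoothDomain (D : Set H2) (γ : ℝ → V) : Prop where
  closed : IsClosed D
  nonempty_interior : (interior D).Nonempty
  smooth : ContDiff ℝ ((⊤ : ℕ∞) : WithTop ℕ∞) γ
  regular : ∀ t, deriv γ t ≠ 0
  periodic : ∀ t, γ (t + 2 * Real.pi) = γ t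
  injective : InjOn γ (Ico 0 (2 * Real.pi))
  boundary : range γ = (fun X : H2 => (X : V)) '' frontier D
  inward_normal : ∀ t, ∃ ν, IsInwardNormal D γ t ν

/-- Normal (geodesic) curvature of the boundary curve at `γ t` with respect to the unit normal
`ν`: `⟨∇_{γ'}γ', ν⟩ / ⟨γ', γ'⟩`. The covariant derivative `∇_{γ'}γ'` is the tangential part of
the ambient second derivative `γ''`, so `⟨∇_{γ'}γ', ν⟩ = mink γ'' ν`. -/
noncomputable def curv (γ : ℝ → V) (t : ℝ) (ν : V) : ℝ :=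
  mink (deriv (deriv γ) t) ν / mink (deriv γ t) (deriv γ t)

/-- all normal curvatures are `≥ μ` -/
def MuConvex (D : Set H2) (γ : ℝ → V) (μ : ℝ) : Prop :=
  ∀ t ν, IsInwardNormal D γ t ν → μ ≤ curv γ t ν

/-- `D` is convex and all normal curvatures are `≤ lam` -/
def LambdaConcave (D : Set H2) (γ : ℝ → V) (lam : ℝ) : Prop :=
  GeodConvex D ∧ ∀ t ν, IsInwardNormal D γ t ν → curv γ t ν ≤ lam

/-- A ball of radius `R` rolls freely inside `D`. -/
def RollsFreely (D : Set H2) (γ : ℝ → V) (R : ℝ) : Prop :=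
  ∀ t ν, IsInwardNormal D γ t ν → hball (hexp (γ t) ν R) R ⊆ D

/-- `ct_c = sn_c'/sn_c`. -/
noncomputable def ct (c R : ℝ) : ℝ :=
  if c = 0 then 1 / R
  else if c < 0 then √(-c) * Real.cosh (√(-c) * R) / Real.sinh (√(-c) * R)
  else √c * Real.cos (√c * R) / Real.sin (√c * R)

/-- `lam` satisfies the sphere constraints for `c`. -/
def SphereConstraints (c lam : ℝ) : Prop := 0 < lam ∧ (c < 0 → √(-c) < lam)

private lemma up1 (q : ℝ) (h0 : 0 ≤ q) (h1 : q ≤ 1/50) :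
    0 ≤ (289/100*(101/100))*((1 - q + 1188*q^2 + 57600*q^3 - 14400*q^4)^3*(1 - q + 1200*q^2)) - (1 + 70*q + 2221*q^2 + 170256*q^3 + 1181340*q^4 + 103074912*q^5 - 51148800*q^6 - 414720000*q^7)^2 := by
  have e0 : 0 ≤ q - 0 := sub_nonneg.2 h0
  have e1 : 0 ≤ 1/50 - q := sub_nonneg.2 h1
  have key : (289/100*(101/100))*((1 - q + 1188*q^2 + 57600*q^3 - 14400*q^4)^3*(1 - q + 1200*q^2)) - (1 + 70*q + 2221*q^2 + 170256*q^3 + 1181340*q^4 + 103074912*q^5 - 51148800*q^6 - 414720000*q^7)^2 =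
    (1171203613281250000000000)*(q-0)^0*(1/50-q)^14 + (14545341796875000000000000)*(q-0)^1*(1/50-q)^13 + (83628360107421875000000000)*(q-0)^2*(1/50-q)^12 + (294399927371093750000000000)*(q-0)^3*(1/50-q)^11 + (705750192500244140625000000)*(q-0)^4*(1/50-q)^10 + (1209802076780626562500000000)*(q-0)^5*(1/50-q)^9 + (1511991014806430296875000000)*(q-0)^6*(1/50-q)^8 + (1375469801067826890000000000)*(q-0)^7*(1/50-q)^7 + (891786965203953056250000000)*(q-0)^8*(1/50-q)^6 + (397467954404867896600000000)*(q-0)^9*(1/50-q)^5 + (123797793577266977550000000)*(q-0)^10*(1/50-q)^4 + (41637533642241740768000000)*(q-0)^11*(1/50-q)^3 + (23714742866637219125000000)*(q-0)^12*(1/50-q)^2 + (10461354856606837502880000)*(q-0)^13*(1/50-q)^1 + (1943717062452237108760000)*(q-0)^14*(1/50-q)^0 := by ring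
  rw [key]
  positivity

private lemma up2 (q : ℝ) (h0 : 1/50 ≤ q) (h1 : q ≤ 1/20) :
    0 ≤ (289/100*(101/100))*((1 - q + 1188*q^2 + 57600*q^3 - 14400*q^4)^3*(1 - q + 1200*q^2)) - (1 + 70*q + 2221*q^2 + 170256*q^3 + 1181340*q^4 + 103074912*q^5 - 51148800*q^6 - 414720000*q^7)^2 := by
  have e0 : 0 ≤ q - 1/50 := sub_nonneg.2 h0
  have e1 : 0 ≤ 1/20 - q := sub_nonneg.2 h1
  have key : (289/100*(101/100))*((1 - q + 1188*q^2 + 57600*q^3 - 14400*q^4)^3*(1 - q + 1200*q^2)) - (1 + 70*q + 2221*q^2 + 170256*q^3 + 1181340*q^4 + 103074912*q^5 - 51148800*q^6 - 414720000*q^7)^2 =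
    (31845860351217452789923840000/4782969)*(q-1/50)^0*(1/20-q)^14 + (857506855336641209176555520000/4782969)*(q-1/50)^1*(1/20-q)^13 + (10630860004721627469792870400000/4782969)*(q-1/50)^2*(1/20-q)^12 + (79712149852304098065399808000000/4782969)*(q-1/50)^3*(1/20-q)^11 + (403883514077378419846568960000000/4782969)*(q-1/50)^4*(1/20-q)^10 + (1466382229207194804229350400000000/4782969)*(q-1/50)^5*(1/20-q)^9 + (1314882092903998430791040000000000/1594323)*(q-1/50)^6*(1/20-q)^8 + (2668169429088027635395840000000000/1594323)*(q-1/50)^7*(1/20-q)^7 + (4110845766774111213507200000000000/1594323)*(q-1/50)^8*(1/20-q)^6 + (14372106976092131399728000000000000/4782969)*(q-1/50)^9*(1/20-q)^5 + (12478593174556857950960000000000000/4782969)*(q-1/50)^10*(1/20-q)^4 + (7829094033445100378800000000000000/4782969)*(q-1/50)^11*(1/20-q)^3 + (3354830563786932274000000000000000/4782969)*(q-1/50)^12*(1/20-q)^2 + (878482873405200260000000000000000/4782969)*(q-1/50)^13*(1/20-q)^1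 + (105990517928119600000000000000000/4782969)*(q-1/50)^14*(1/20-q)^0 := by ring
  rw [key]
  positivity

private lemma up3 (q : ℝ) (h0 : 1/20 ≤ q) (h1 : q ≤ 1/4) :
    0 ≤ (289/100*(101/100))*((1 - q + 1188*q^2 + 57600*q^3 - 14400*q^4)^3*(1 - q + 1200*q^2)) - (1 + 70*q + 2221*q^2 + 170256*q^3 + 1181340*q^4 + 103074912*q^5 - 51148800*q^6 - 414720000*q^7)^2 := by
  have e0 : 0 ≤ q - 1/20 := sub_nonneg.2 h0
  have e1 : 0 ≤ 1/4 - q := sub_nonneg.2 h1
  have key : (289/100*(101/100))*((1 - q + 1188*q^2 + 57600*q^3 - 14400*q^4)^3*(1 - q + 1200*q^2)) - (1 + 70*q + 2221*q^2 + 170256*q^3 + 1181340*q^4 + 103074912*q^5 - 51148800*q^6 - 414720000*q^7)^2 =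
    (33122036852537375/512)*(q-1/20)^0*(1/4-q)^14 + (1724925969244844375/512)*(q-1/20)^1*(1/4-q)^13 + (10337518967824867875/128)*(q-1/20)^2*(1/4-q)^12 + (302030494441261600125/256)*(q-1/20)^3*(1/4-q)^11 + (5997827605651643630625/512)*(q-1/20)^4*(1/4-q)^10 + (42726652413951934423125/512)*(q-1/20)^5*(1/4-q)^9 + (112286519228207570350125/256)*(q-1/20)^6*(1/4-q)^8 + (220414123203932235222375/128)*(q-1/20)^7*(1/4-q)^7 + (2586785754959788361630625/512)*(q-1/20)^8*(1/4-q)^6 + (5614523531709157229740625/512)*(q-1/20)^9*(1/4-q)^5 + (1102152609184546437109375/64)*(q-1/20)^10*(1/4-q)^4 + (4821956460891611456953125/256)*(q-1/20)^11*(1/4-q)^3 + (6892313382052959287109375/512)*(q-1/20)^12*(1/4-q)^2 + (2864010956042449951171875/512)*(q-1/20)^13*(1/4-q)^1 + (260205332849176025390625/256)*(q-1/20)^14*(1/4-q)^0 := by ring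
  rw [key]
  positivity

private lemma lo1 (q : ℝ) (h0 : 0 ≤ q) (h1 : q ≤ 1/4) :
    0 ≤ (1 + 70*q + 2221*q^2 + 170256*q^3 + 1181340*q^4 + 103074912*q^5 - 51148800*q^6 - 414720000*q^7)^2 - (101/1600)*((1 - q + 1188*q^2 + 57600*q^3 - 14400*q^4)^3*(1 - q + 1200*q^2)) := by
  have e0 : 0 ≤ q - 0 := sub_nonneg.2 h0
  have e1 : 0 ≤ 1/4 - q := sub_nonneg.2 h1
  have key : (1 + 70*q + 2221*q^2 + 170256*q^3 + 1181340*q^4 + 103074912*q^5 - 51148800*q^6 - 414720000*q^7)^2 - (101/1600)*((1 - q + 1188*q^2 + 57600*q^3 - 14400*q^4)^3*(1 - q + 1200*q^2)) =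
    (6287261696/25)*(q-0)^0*(1/4-q)^14 + (323326312448/25)*(q-0)^1*(1/4-q)^13 + (7423126929408/25)*(q-0)^2*(1/4-q)^12 + (133407167741952/25)*(q-0)^3*(1/4-q)^11 + (1866642280267776/25)*(q-0)^4*(1/4-q)^10 + (3977182050729984/5)*(q-0)^5*(1/4-q)^9 + (191689218508111872/25)*(q-0)^6*(1/4-q)^8 + (1333721008058892288/25)*(q-0)^7*(1/4-q)^7 + (8849411577405407232/25)*(q-0)^8*(1/4-q)^6 + (38748523455332827136/25)*(q-0)^9*(1/4-q)^5 + (157163570150723354624/25)*(q-0)^10*(1/4-q)^4 + (339843021839393931264/25)*(q-0)^11*(1/4-q)^3 + (13029656602799112192)*(q-0)^12*(1/4-q)^2 + (4638748643625664512)*(q-0)^13*(1/4-q)^1 + (330860544522633216)*(q-0)^14*(1/4-q)^0 := by ring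
  rw [key]
  positivity

private lemma m1pos (q : ℝ) (h0 : 0 ≤ q) (h1 : q ≤ 1/4) :
    0 ≤ (1 + 70*q + 2221*q^2 + 170256*q^3 + 1181340*q^4 + 103074912*q^5 - 51148800*q^6 - 414720000*q^7) - 1/2 := by
  have e0 : 0 ≤ q - 0 := sub_nonneg.2 h0
  have e1 : 0 ≤ 1/4 - q := sub_nonneg.2 h1
  have key : (1 + 70*q + 2221*q^2 + 170256*q^3 + 1181340*q^4 + 103074912*q^5 - 51148800*q^6 - 414720000*q^7) - 1/2 =
    (8192)*(q-0)^0*(1/4-q)^7 + (344064)*(q-0)^1*(1/4-q)^6 + (4166656)*(q-0)^2*(1/4-q)^5 + (59544576)*(q-0)^3*(1/4-q)^4 + (278712064)*(q-0)^4*(1/4-q)^3 + (2164744960)*(q-0)^5*(1/4-q)^2 + (3508110592)*(q-0)^6*(1/4-q)^1 + (1151643904)*(q-0)^7*(1/4-q)^0 := by ring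
  rw [key]
  positivity

private lemma b0pos (q : ℝ) (h0 : 0 ≤ q) (h1 : q ≤ 1/4) :
    0 ≤ (1 - q + 1188*q^2 + 57600*q^3 - 14400*q^4) - 1/2 := by
  have e0 : 0 ≤ q - 0 := sub_nonneg.2 h0
  have e1 : 0 ≤ 1/4 - q := sub_nonneg.2 h1
  have key : (1 - q + 1188*q^2 + 57600*q^3 - 14400*q^4) - 1/2 =
    (128)*(q-0)^0*(1/4-q)^4 + (448)*(q-0)^1*(1/4-q)^3 + (19584)*(q-0)^2*(1/4-q)^2 + (268736)*(q-0)^3*(1/4-q)^1 + (235072)*(q-0)^4*(1/4-q)^0 := by ring
  rw [key]
  positivity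

/-- curvature core: everything in coordinates -/
private lemma key_curv (z x y : ℝ) (hz : 0 < z) (hX : x*x + y*y - z*z = -1)
    (hF : 12*y^4 + (101/100)*x^2*z^2 + y^2*z^2 - z^4 = 0) :
    ∃ (K N2 : ℝ),
      K = ((101/50)*x^2 + 2*y^2 - 12*z^2) * (x*(48*y^3+2*y*z^2) - y*((101/50)*x*z^2))^2
        + (101/50)*z^2 * (y*((101/50)*x^2*z+2*y^2*z-4*z^3) + z*(48*y^3+2*y*z^2))^2
        + (144*y^2 + 2*z^2) * (-z*((101/50)*x*z^2) - x*((101/50)*x^2*z+2*y^2*z-4*z^3))^2
        + 2*((101/25)*x*z) * (x*(48*y^3+2*y*z^2) - y*((101/50)*x*z^2))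
            * (y*((101/50)*x^2*z+2*y^2*z-4*z^3) + z*(48*y^3+2*y*z^2))
        + 2*(4*y*z) * (x*(48*y^3+2*y*z^2) - y*((101/50)*x*z^2))
            * (-z*((101/50)*x*z^2) - x*((101/50)*x^2*z+2*y^2*z-4*z^3)) ∧
      N2 = ((101/50)*x*z^2)^2 + (48*y^3+2*y*z^2)^2 - ((101/50)*x^2*z+2*y^2*z-4*z^3)^2 ∧
      0 < N2 ∧ 0 < K ∧ K^2 ≤ (289/100) * N2^3 ∧ (1/16) * N2^3 ≤ K^2 := by
  refine ⟨_, _, rfl, rfl, ?_⟩
  obtain ⟨q, hq⟩ : ∃ q, q = y^2 / z^2 := ⟨_, rfl⟩
  have hy : y^2 = q * z^2 := by rw [hq]; field_simp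
  have hz2 : 0 < z^2 := by positivity
  have hx : x^2 = (100/101) * (1 - 4*q)*(1+3*q) * z^2 := by
    have e : (101/100)*x^2*z^2 = z^4 - y^2*z^2 - 12*(y^2)^2 := by linear_combination hF
    rw [hy] at e
    have e2 : z^2 * (x^2 - (100/101) * (1 - 4*q)*(1+3*q) * z^2) = 0 := by
      linear_combination (100/101) * e
    rcases mul_eq_zero.1 e2 with h | h
    · exact absurd h hz2.ne'
    · linarith
  have q0 : 0 ≤ q := by rw [hq]; positivity
  have q1 : q ≤ 1/4 := by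
    by_contra h
    push Not at h
    have : (100/101) * (1 - 4*q)*(1+3*q) * z^2 < 0 := by
      have : (1 - 4*q)*(1+3*q) < 0 := by nlinarith
      nlinarith
    nlinarith [sq_nonneg x]
  have hw : z^2 * (1/101) * (1 - q + 1200*q^2) = 1 := by
    have e : z^2 - x^2 - y^2 = 1 := by linear_combination -hX
    rw [hx, hy] at e
    linear_combination e
  -- the polynomial identities
  have hN : ((101/50)*x*z^2)^2 + (48*y^3+2*y*z^2)^2 - ((101/50)*x^2*z+2*y^2*z-4*z^3)^2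
      = z^6 * (1/25) * (1 - q + 1188*q^2 + 57600*q^3 - 14400*q^4) := by
    have e : ((101/50)*x*z^2)^2 + (48*y^3+2*y*z^2)^2 - ((101/50)*x^2*z+2*y^2*z-4*z^3)^2
      = (101/50)^2*x^2*z^4 + y^2*(48*y^2+2*z^2)^2 - z^2*((101/50)*x^2+2*y^2-4*z^2)^2 := by ring
    rw [e, hx, hy]; ring
  have hK : ((101/50)*x^2 + 2*y^2 - 12*z^2) * (x*(48*y^3+2*y*z^2) - y*((101/50)*x*z^2))^2
        + (101/50)*z^2 * (y*((101/50)*x^2*z+2*y^2*z-4*z^3) + z*(48*y^3+2*y*z^2))^2
        + (144*y^2 + 2*z^2) * (-z*((101/50)*x*z^2) - x*((101/50)*x^2*z+2*y^2*z-4*z^3))^2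
        + 2*((101/25)*x*z) * (x*(48*y^3+2*y*z^2) - y*((101/50)*x*z^2))
            * (y*((101/50)*x^2*z+2*y^2*z-4*z^3) + z*(48*y^3+2*y*z^2))
        + 2*(4*y*z) * (x*(48*y^3+2*y*z^2) - y*((101/50)*x*z^2))
            * (-z*((101/50)*x*z^2) - x*((101/50)*x^2*z+2*y^2*z-4*z^3))
      = z^10 * (8/10100) * (1 + 70*q + 2221*q^2 + 170256*q^3 + 1181340*q^4 + 103074912*q^5
          - 51148800*q^6 - 414720000*q^7) := by
    have e : ((101/50)*x^2 + 2*y^2 - 12*z^2) * (x*(48*y^3+2*y*z^2) - y*((101/50)*x*z^2))^2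
        + (101/50)*z^2 * (y*((101/50)*x^2*z+2*y^2*z-4*z^3) + z*(48*y^3+2*y*z^2))^2
        + (144*y^2 + 2*z^2) * (-z*((101/50)*x*z^2) - x*((101/50)*x^2*z+2*y^2*z-4*z^3))^2
        + 2*((101/25)*x*z) * (x*(48*y^3+2*y*z^2) - y*((101/50)*x*z^2))
            * (y*((101/50)*x^2*z+2*y^2*z-4*z^3) + z*(48*y^3+2*y*z^2))
        + 2*(4*y*z) * (x*(48*y^3+2*y*z^2) - y*((101/50)*x*z^2))
            * (-z*((101/50)*x*z^2) - x*((101/50)*x^2*z+2*y^2*z-4*z^3))
      = ((101/50)*x^2 + 2*y^2 - 12*z^2) * x^2 * y^2 * (48*y^2+2*z^2 - (101/50)*z^2)^2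
        + (101/50)*z^2 * y^2 * z^2* (((101/50)*x^2+2*y^2-4*z^2) + (48*y^2+2*z^2))^2
        + (144*y^2 + 2*z^2) * x^2 * z^2 * ((101/50)*z^2 + ((101/50)*x^2+2*y^2-4*z^2))^2
        + 2*((101/25)*x^2*z^2) * y^2 * (48*y^2+2*z^2 - (101/50)*z^2)
            * (((101/50)*x^2+2*y^2-4*z^2) + (48*y^2+2*z^2))
        - 2*(4*y^2*z^2) * x^2 * (48*y^2+2*z^2 - (101/50)*z^2)
            * ((101/50)*z^2 + ((101/50)*x^2+2*y^2-4*z^2)) := by ring
    rw [e, hx, hy]; ring
  rw [hN, hK]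
  have hb := b0pos q q0 q1
  have hm := m1pos q q0 q1
  have hup : 0 ≤ (289/100*(101/100))*((1 - q + 1188*q^2 + 57600*q^3 - 14400*q^4)^3*(1 - q + 1200*q^2)) - (1 + 70*q + 2221*q^2 + 170256*q^3 + 1181340*q^4 + 103074912*q^5 - 51148800*q^6 - 414720000*q^7)^2 := by
    rcases le_total q (1/50) with h | h
    · exact up1 q q0 h
    · rcases le_total q (1/20) with h' | h'
      · exact up2 q h h'
      · exact up3 q h' q1
  have hlo := lo1 q q0 q1
  obtain ⟨b, hbdef⟩ : ∃ b, b = 1 - q + 1188*q^2 + 57600*q^3 - 14400*q^4 := ⟨_, rfl⟩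
  obtain ⟨m, hmdef⟩ : ∃ m, m = 1 + 70*q + 2221*q^2 + 170256*q^3 + 1181340*q^4 + 103074912*q^5 - 51148800*q^6 - 414720000*q^7 := ⟨_, rfl⟩
  obtain ⟨a, hadef⟩ : ∃ a, a = 1 - q + 1200*q^2 := ⟨_, rfl⟩
  rw [← hbdef] at hb hup hlo ⊢
  rw [← hmdef] at hm hup hlo ⊢
  rw [← hadef] at hup hlo hw
  have hbp : 0 < b := by linarith
  have hmp : 0 < m := by linarith
  refine ⟨by positivity, by positivity, ?_, ?_⟩
  · have e : (289/100) * (z^6*(1/25)*b)^3 = z^18 * (1/25)^3 * (289/100) * b^3 * (z^2 * (1/101) * a) := by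
      rw [hw]; ring
    rw [e]
    have : z^18 * (1/25)^3 * (289/100) * b^3 * (z^2 * (1/101) * a) - (z^10 * (8/10100) * m)^2
        = z^20 * (8/10100)^2 * ((289/100*(101/100))*(b^3*a) - m^2) := by ring
    have h2 : 0 ≤ z^20 * (8/10100)^2 * ((289/100*(101/100))*(b^3*a) - m^2) := by positivity
    linarith
  · have e : (1/16) * (z^6*(1/25)*b)^3 = z^18 * (1/25)^3 * (1/16) * b^3 * (z^2 * (1/101) * a) := by
      rw [hw]; ring
    rw [e]
    have : (z^10 * (8/10100) * m)^2 - z^18 * (1/25)^3 * (1/16) * b^3 * (z^2 * (1/101) * a)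
        = z^20 * (8/10100)^2 * (m^2 - (101/1600)*(b^3*a)) := by ring
    have h2 : 0 ≤ z^20 * (8/10100)^2 * (m^2 - (101/1600)*(b^3*a)) := by positivity
    linarith

private lemma curv_bounds (z x y p q r a b c l m n : ℝ) (hz : 0 < z)
    (hX : x*x + y*y - z*z = -1)
    (hF : 12*y^4 + (101/100)*x^2*z^2 + y^2*z^2 - z^4 = 0)
    (hT : ¬ (p = 0 ∧ q = 0 ∧ r = 0))
    (hXT : x*q + y*r - z*p = 0)
    (hGT : ((101/50)*x^2*z+2*y^2*z-4*z^3)*p + ((101/50)*x*z^2)*q + (48*y^3+2*y*z^2)*r = 0)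
    (hnX : m*x + n*y - l*z = 0) (hnT : m*q + n*r - l*p = 0) (hnn : m*m + n*n - l*l = 1)
    (hin : ((101/50)*x^2*z+2*y^2*z-4*z^3)*l + ((101/50)*x*z^2)*m + (48*y^3+2*y*z^2)*n ≤ 0)
    (hA : ((101/50)*x^2 + 2*y^2 - 12*z^2) * p^2 + (101/50)*z^2 * q^2 + (144*y^2 + 2*z^2) * r^2
        + 2*((101/25)*x*z) * p * q + 2*(4*y*z) * p * r
        + (((101/50)*x^2*z+2*y^2*z-4*z^3)*a + ((101/50)*x*z^2)*b + (48*y^3+2*y*z^2)*c) = 0) :
    0 < q*q + r*r - p*p ∧ (1/4) * (q*q + r*r - p*p) ≤ b*m + c*n - a*l ∧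
      b*m + c*n - a*l ≤ (17/10) * (q*q + r*r - p*p) := by
  obtain ⟨K, N2, hK, hN2, N2pos, Kpos, hup, hlo⟩ := key_curv z x y hz hX hF
  obtain ⟨fz, hfz⟩ : ∃ fz, fz = (101/50)*x^2*z+2*y^2*z-4*z^3 := ⟨_, rfl⟩
  obtain ⟨fx, hfx⟩ : ∃ fx, fx = (101/50)*x*z^2 := ⟨_, rfl⟩
  obtain ⟨fy, hfy⟩ : ∃ fy, fy = 48*y^3+2*y*z^2 := ⟨_, rfl⟩
  have hEuler : z*fz + x*fx + y*fy = 0 := by
    rw [hfz, hfx, hfy]; linear_combination 4 * hF
  rw [← hfz, ← hfx, ← hfy] at hK hN2 hGT hin hA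
  -- T is parallel to T0
  obtain ⟨t0, ht0⟩ : ∃ t0, t0 = x*fy - y*fx := ⟨_, rfl⟩
  obtain ⟨t1, ht1⟩ : ∃ t1, t1 = y*fz + z*fy := ⟨_, rfl⟩
  obtain ⟨t2, ht2⟩ : ∃ t2, t2 = -z*fx - x*fz := ⟨_, rfl⟩
  have hTT0 : t1^2 + t2^2 - t0^2 = N2 := by
    rw [ht0, ht1, ht2, hN2]
    linear_combination (-(fx^2 + fy^2 - fz^2)) * hX + (z*fz + x*fx + y*fy) * hEuler
  have par1 : q*t2 - r*t1 = 0 := by
    rw [ht1, ht2]; linear_combination (-z)*hGT - fz*hXT
  have par2 : r*t0 - p*t2 = 0 := by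
    rw [ht0, ht2]; linear_combination x*hGT - fx*hXT
  have par3 : p*t1 - q*t0 = 0 := by
    rw [ht0, ht1]; linear_combination y*hGT - fy*hXT
  obtain ⟨μ, hμ⟩ : ∃ μ, μ = (q*t1 + r*t2 - p*t0)/N2 := ⟨_, rfl⟩
  have hμN : μ * N2 = q*t1 + r*t2 - p*t0 := by rw [hμ]; field_simp
  have hp : p = μ * t0 := by
    have : N2 * (p - μ*t0) = 0 := by
      linear_combination (-t0)*hμN - p*hTT0 + t1*par3 - t2*par2
    rcases mul_eq_zero.1 this with h | h
    · exact absurd h N2pos.ne'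
    · linarith
  have hq : q = μ * t1 := by
    have : N2 * (q - μ*t1) = 0 := by
      linear_combination (-t1)*hμN - q*hTT0 + t0*par3 + t2*par1
    rcases mul_eq_zero.1 this with h | h
    · exact absurd h N2pos.ne'
    · linarith
  have hr : r = μ * t2 := by
    have : N2 * (r - μ*t2) = 0 := by
      linear_combination (-t2)*hμN - r*hTT0 - t0*par2 - t1*par1
    rcases mul_eq_zero.1 this with h | h
    · exact absurd h N2pos.ne'
    · linarith
  have hμ0 : μ ≠ 0 := by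
    intro h
    apply hT
    rw [hp, hq, hr, h]; simp
  have hTT : q*q + r*r - p*p = μ^2 * N2 := by
    rw [hp, hq, hr]; linear_combination μ^2 * hTT0
  -- nu is parallel to G = (-fz, fx, fy)
  have hnT0 : m*t1 + n*t2 - l*t0 = 0 := by
    have : μ * (m*t1 + n*t2 - l*t0) = 0 := by
      rw [hp, hq, hr] at hnT; linear_combination hnT
    rcases mul_eq_zero.1 this with h | h
    · exact absurd h hμ0
    · exact h
  have np0 : m*fy - n*fx = 0 := by
    have e : m*fy - n*fx = -((-z)*(m*t1 + n*t2 - l*t0) - (-t0)*(m*x + n*y - l*z))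
        - (z*fz + x*fx + y*fy) * (m*y - n*x) + (x*x+y*y-z*z+1)*(m*fy - n*fx) := by
      rw [ht0, ht1, ht2]; ring
    rw [e, hnT0, hnX, hEuler, hX]; ring
  have np1 : n*(-fz) - l*fy = 0 := by
    have e : n*(-fz) - l*fy = -(x*(m*t1 + n*t2 - l*t0) - t1*(m*x + n*y - l*z))
        - (z*fz + x*fx + y*fy) * (n*z - l*y) + (x*x+y*y-z*z+1)*(n*(-fz) - l*fy) := by
      rw [ht0, ht1, ht2]; ring
    rw [e, hnT0, hnX, hEuler, hX]; ring
  have np2 : l*fx - m*(-fz) = 0 := by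
    have e : l*fx - m*(-fz) = -(y*(m*t1 + n*t2 - l*t0) - t2*(m*x + n*y - l*z))
        - (z*fz + x*fx + y*fy) * (l*x - m*z) + (x*x+y*y-z*z+1)*(l*fx - m*(-fz)) := by
      rw [ht0, ht1, ht2]; ring
    rw [e, hnT0, hnX, hEuler, hX]; ring
  obtain ⟨κ, hκ⟩ : ∃ κ, κ = fz*l + fx*m + fy*n := ⟨_, rfl⟩
  rw [← hκ] at hin
  have g0 : -fz = κ*l := by
    rw [hκ]; linear_combination fz*hnn - m*np2 + n*np1
  have g1 : fx = κ*m := by
    rw [hκ]; linear_combination (-fx)*hnn - n*np0 - l*np2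
  have g2 : fy = κ*n := by
    rw [hκ]; linear_combination (-fy)*hnn + m*np0 + l*np1
  have hN2κ : N2 = κ^2 := by
    rw [hN2]
    have e : fz = -(κ*l) := by linarith
    rw [e, g1, g2]; linear_combination κ^2*hnn
  have hκ0 : κ < 0 := by
    rcases lt_or_eq_of_le hin with h | h
    · exact h
    · rw [h] at hN2κ; simp at hN2κ; linarith
  obtain ⟨N, hN⟩ : ∃ N, N = -κ := ⟨_, rfl⟩
  have hNpos : 0 < N := by linarith
  have hN2N : N2 = N^2 := by rw [hN2κ, hN]; ring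
  have hAnu : N * (b*m + c*n - a*l) = μ^2 * K := by
    have e1 : N * (b*m + c*n - a*l) = -(fz*a + fx*b + fy*c) := by
      rw [g1, g2, hN]
      have : fz = -(κ*l) := by linarith
      rw [this]; ring
    rw [e1]
    have e2 : -(fz*a + fx*b + fy*c) = ((101/50)*x^2 + 2*y^2 - 12*z^2) * p^2 + (101/50)*z^2 * q^2
        + (144*y^2 + 2*z^2) * r^2 + 2*((101/25)*x*z) * p * q + 2*(4*y*z) * p * r := by
      linear_combination (-1)*hA
    rw [e2, hp, hq, hr, hK, ht0, ht1, ht2]; ring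
  have h1 : K ≤ (17/10) * N^3 := by
    have : K^2 ≤ ((17/10)*N^3)^2 := by
      rw [hN2N] at hup; calc K^2 ≤ _ := hup
        _ = _ := by ring
    exact (pow_le_pow_iff_left₀ Kpos.le (by positivity) two_ne_zero).1 this
  have h2 : (1/4) * N^3 ≤ K := by
    have : ((1/4)*N^3)^2 ≤ K^2 := by
      rw [hN2N] at hlo; calc _ = (1/16) * (N^2)^3 := by ring
        _ ≤ K^2 := hlo
    exact (pow_le_pow_iff_left₀ (by positivity) Kpos.le two_ne_zero).1 this
  have hμ2 : 0 < μ^2 := by positivity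
  refine ⟨by rw [hTT]; positivity, ?_, ?_⟩
  · rw [hTT]
    have : N * ((1/4) * (μ^2*N2)) ≤ N * (b*m + c*n - a*l) := by
      rw [hAnu, hN2N]
      calc N * ((1/4) * (μ^2*N^2)) = μ^2 * ((1/4)*N^3) := by ring
        _ ≤ μ^2 * K := by gcongr
    exact le_of_mul_le_mul_left this hNpos
  · rw [hTT]
    have : N * (b*m + c*n - a*l) ≤ N * ((17/10) * (μ^2*N2)) := by
      rw [hAnu, hN2N]
      calc μ^2 * K ≤ μ^2 * ((17/10)*N^3) := by gcongr
        _ = N * ((17/10) * (μ^2*N^2)) := by ring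
    exact le_of_mul_le_mul_left this hNpos

private lemma mink_comm (X Y : V) : mink X Y = mink Y X := by unfold mink; ring

private lemma hexp_mink (X ν : V) (hX : mink X X = -1) (h1 : mink ν X = 0) (h2 : mink ν ν = 1)
    (r s : ℝ) : mink (hexp X ν r) (hexp X ν s) = -Real.cosh (r - s) := by
  rw [Real.cosh_sub]
  have e : mink (hexp X ν r) (hexp X ν s) = Real.cosh r * Real.cosh s * mink X X
      + (Real.cosh r * Real.sinh s + Real.sinh r * Real.cosh s) * mink ν X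
      + Real.sinh r * Real.sinh s * mink ν ν := by
    simp only [mink, hexp, Pi.add_apply, Pi.smul_apply, smul_eq_mul]; ring
  rw [e, hX, h1, h2]; ring

private lemma hexp_pos (X ν : V) (hX : mink X X = -1) (hz : 0 < X 0) (h1 : mink ν X = 0)
    (h2 : mink ν ν = 1) (r : ℝ) : 0 < hexp X ν r 0 := by
  have e : hexp X ν r 0 = Real.cosh r * X 0 + Real.sinh r * ν 0 := by
    simp [hexp]
  rw [e]
  have hν : (ν 0)^2 < (X 0)^2 := by
    simp only [mink] at hX h1 h2
    have a1 : (ν 0 * X 0)^2 ≤ ((ν 1)^2 + (ν 2)^2) * ((X 1)^2 + (X 2)^2) := by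
      have : ν 0 * X 0 = ν 1 * X 1 + ν 2 * X 2 := by linarith
      rw [this]; nlinarith [sq_nonneg (ν 1 * X 2 - ν 2 * X 1)]
    have a2 : (ν 1)^2 + (ν 2)^2 = 1 + (ν 0)^2 := by linarith
    have a3 : (X 1)^2 + (X 2)^2 = (X 0)^2 - 1 := by linarith
    rw [a2, a3] at a1
    nlinarith
  have hs : (Real.sinh r)^2 < (Real.cosh r)^2 := by rw [Real.cosh_sq]; linarith
  have hc := Real.cosh_pos r
  have h3 : (Real.sinh r * ν 0)^2 < (Real.cosh r * X 0)^2 := by
    rw [mul_pow, mul_pow]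
    have := sq_nonneg (ν 0); have := sq_nonneg (Real.sinh r)
    have h4 : 0 < (X 0)^2 := by positivity
    calc (Real.sinh r)^2 * (ν 0)^2 ≤ (Real.sinh r)^2 * (X 0)^2 := by gcongr
      _ < (Real.cosh r)^2 * (X 0)^2 := by gcongr
  have h5 : |Real.sinh r * ν 0| < Real.cosh r * X 0 := by
    have hp : 0 < Real.cosh r * X 0 := by positivity
    have := sq_lt_sq.1 h3
    rwa [abs_of_pos hp] at this
  have := (abs_lt.1 h5).1
  linarith

private lemma hexp_mem (X ν : V) (hX : mink X X = -1 ∧ 0 < X 0) (h1 : mink ν X = 0)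
    (h2 : mink ν ν = 1) (r : ℝ) : mink (hexp X ν r) (hexp X ν r) = -1 ∧ 0 < hexp X ν r 0 := by
  refine ⟨?_, hexp_pos X ν hX.1 hX.2 h1 h2 r⟩
  rw [hexp_mink X ν hX.1 h1 h2]; simp

private lemma hexp_dist (X ν : V) (hX : mink X X = -1) (h1 : mink ν X = 0) (h2 : mink ν ν = 1)
    (r s : ℝ) : hdist (hexp X ν r) (hexp X ν s) = |r - s| := by
  unfold hdist
  rw [hexp_mink X ν hX h1 h2, neg_neg, ← Real.cosh_abs, Real.arcosh_cosh (abs_nonneg _)]

/-- the defining function -/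
private noncomputable def F (X : V) : ℝ :=
  12 * (X 2)^4 + (101/100) * (X 1)^2 * (X 0)^2 + (X 2)^2 * (X 0)^2 - (X 0)^4

private noncomputable def dF (X T : V) : ℝ :=
  ((101/50)*(X 1)^2*(X 0)+2*(X 2)^2*(X 0)-4*(X 0)^3) * T 0 + ((101/50)*(X 1)*(X 0)^2) * T 1
    + (48*(X 2)^3+2*(X 2)*(X 0)^2) * T 2

private noncomputable def hs (X T : V) : ℝ :=
  ((101/50)*(X 1)^2 + 2*(X 2)^2 - 12*(X 0)^2) * (T 0)^2 + (101/50)*(X 0)^2 * (T 1)^2
    + (144*(X 2)^2 + 2*(X 0)^2) * (T 2)^2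
        + 2*((101/25)*(X 1)*(X 0)) * T 0 * T 1 + 2*(4*(X 2)*(X 0)) * T 0 * T 2

private noncomputable def Dom : Set H2 := {X | F X ≤ 0}

private lemma contF : Continuous F := by unfold F; fun_prop

private lemma hasDeriv_F {γ : ℝ → V} {T : V} {t : ℝ} (h : HasDerivAt γ T t) :
    HasDerivAt (fun s => F (γ s)) (dF (γ t) T) t := by
  have h0 := (hasDerivAt_pi.1 h) 0
  have h1 := (hasDerivAt_pi.1 h) 1
  have h2 := (hasDerivAt_pi.1 h) 2
  have := ((((h2.pow 4).const_mul 12).add (((h1.pow 2).const_mul (101/100)).mul (h0.pow 2))).add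
    ((h2.pow 2).mul (h0.pow 2))).sub (h0.pow 4)
  refine HasDerivAt.congr_deriv (f := fun s => F (γ s)) this ?_
  simp only [dF]; simp; ring

private lemma hasDeriv_dF {γ τ : ℝ → V} {A : V} {t : ℝ} (h : HasDerivAt γ (τ t) t)
    (h' : HasDerivAt τ A t) :
    HasDerivAt (fun s => dF (γ s) (τ s)) (hs (γ t) (τ t) + dF (γ t) A) t := by
  have h0 := (hasDerivAt_pi.1 h) 0
  have h1 := (hasDerivAt_pi.1 h) 1
  have h2 := (hasDerivAt_pi.1 h) 2
  have k0 := (hasDerivAt_pi.1 h') 0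
  have k1 := (hasDerivAt_pi.1 h') 1
  have k2 := (hasDerivAt_pi.1 h') 2
  have := (((((((h1.pow 2).const_mul (101/50)).mul h0).add (((h2.pow 2).const_mul 2).mul h0)).sub
    ((h0.pow 3).const_mul 4)).mul k0).add (((h1.const_mul (101/50)).mul (h0.pow 2)).mul k1)).add
    ((((h2.pow 3).const_mul 48).add ((h2.const_mul 2).mul (h0.pow 2))).mul k2)
  refine HasDerivAt.congr_deriv (f := fun s => dF (γ s) (τ s)) this ?_
  simp only [dF, hs]; simp; ring

private lemma hasDeriv_mink {γ τ : ℝ → V} {T A : V} {t : ℝ} (h : HasDerivAt γ T t)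
    (h' : HasDerivAt τ A t) :
    HasDerivAt (fun s => mink (γ s) (τ s)) (mink T (τ t) + mink (γ t) A) t := by
  have h0 := (hasDerivAt_pi.1 h) 0
  have h1 := (hasDerivAt_pi.1 h) 1
  have h2 := (hasDerivAt_pi.1 h) 2
  have k0 := (hasDerivAt_pi.1 h') 0
  have k1 := (hasDerivAt_pi.1 h') 1
  have k2 := (hasDerivAt_pi.1 h') 2
  have := ((h1.mul k1).add (h2.mul k2)).sub (h0.mul k0)
  refine HasDerivAt.congr_deriv (f := fun s => mink (γ s) (τ s)) this ?_
  simp only [mink]; ring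

private lemma hexp_deriv (X ν : V) : HasDerivAt (hexp X ν) ν 0 := by
  rw [hasDerivAt_pi]
  intro i
  have := ((Real.hasDerivAt_cosh 0).mul_const (X i)).add ((Real.hasDerivAt_sinh 0).mul_const (ν i))
  refine HasDerivAt.congr_deriv (f := fun r => hexp X ν r i) this ?_
  simp

private lemma hexp_zero (X ν : V) : hexp X ν 0 = X := by
  simp [hexp]

private lemma ev_neg {f : ℝ → ℝ} {c : ℝ} (h : HasDerivAt f c 0) (h0 : f 0 = 0) (hc : c < 0) :
    (∀ᶠ r in 𝓝[>] (0:ℝ), f r < 0) ∧ (∀ᶠ r in 𝓝[<] (0:ℝ), 0 < f r) := by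
  have h1 := (hasDerivAt_iff_tendsto_slope.1 h).eventually (Iio_mem_nhds hc)
  constructor
  · have h2 : ∀ᶠ r in 𝓝[>] (0:ℝ), slope f 0 r ∈ Iio (0:ℝ) :=
      h1.filter_mono (nhdsWithin_mono _ (fun x hx => ne_of_gt hx))
    filter_upwards [h2, self_mem_nhdsWithin] with r hr hr0
    have hr0' : (0:ℝ) < r := hr0
    rw [slope_def_field, h0] at hr
    have hr' : (f r - 0) / (r - 0) < 0 := hr
    rw [sub_zero, sub_zero, div_lt_iff₀ hr0'] at hr'
    linarith
  · have h2 : ∀ᶠ r in 𝓝[<] (0:ℝ), slope f 0 r ∈ Iio (0:ℝ) :=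
      h1.filter_mono (nhdsWithin_mono _ (fun x hx => ne_of_lt hx))
    filter_upwards [h2, self_mem_nhdsWithin] with r hr hr0
    have hr0' : r < 0 := hr0
    rw [slope_def_field, h0] at hr
    have hr' : (f r - 0) / (r - 0) < 0 := hr
    rw [sub_zero, sub_zero, div_lt_iff_of_neg hr0'] at hr'
    linarith

private lemma nonpos_of_ev {f : ℝ → ℝ} {c : ℝ} (h : HasDerivAt f c 0) (h0 : f 0 = 0)
    (hf : ∀ᶠ r in 𝓝[>] (0:ℝ), f r ≤ 0) : c ≤ 0 := by
  by_contra hc
  push Not at hc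
  have h1 := (ev_neg (f := fun x => - f x) (c := -c) h.neg (by simp [h0]) (by linarith)).1
  obtain ⟨r, hr1, hr2⟩ := (h1.and hf).exists
  linarith

/-- the explicit inward unit normal -/
private lemma exists_normal (X : V) (hX : mink X X = -1 ∧ 0 < X 0) (hF : F X = 0) :
    ∃ ν : V, mink ν X = 0 ∧ mink ν ν = 1 ∧ dF X ν < 0 ∧
      ∀ T : V, dF X T = 0 → mink ν T = 0 := by
  have hX1 : X 1 * X 1 + X 2 * X 2 - X 0 * X 0 = -1 := hX.1
  have hF1 : 12*(X 2)^4 + (101/100)*(X 1)^2*(X 0)^2 + (X 2)^2*(X 0)^2 - (X 0)^4 = 0 := hF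
  obtain ⟨K, N2, -, hN2, N2pos, -, -, -⟩ := key_curv (X 0) (X 1) (X 2) hX.2 hX1 hF1
  obtain ⟨fz, hfz⟩ : ∃ fz, fz = (101/50)*(X 1)^2*(X 0)+2*(X 2)^2*(X 0)-4*(X 0)^3 := ⟨_, rfl⟩
  obtain ⟨fx, hfx⟩ : ∃ fx, fx = (101/50)*(X 1)*(X 0)^2 := ⟨_, rfl⟩
  obtain ⟨fy, hfy⟩ : ∃ fy, fy = 48*(X 2)^3+2*(X 2)*(X 0)^2 := ⟨_, rfl⟩
  have hdF : ∀ T : V, dF X T = fz * T 0 + fx * T 1 + fy * T 2 := by
    intro T; simp only [dF]; rw [hfz, hfx, hfy]
  rw [← hfz, ← hfx, ← hfy] at hN2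
  have hEuler : X 0 * fz + X 1 * fx + X 2 * fy = 0 := by
    rw [hfz, hfx, hfy]; linear_combination 4 * hF1
  have hs : √N2 ^ 2 = N2 := Real.sq_sqrt N2pos.le
  have hs0 : 0 < √N2 := Real.sqrt_pos.2 N2pos
  obtain ⟨N, hN⟩ : ∃ N, N = √N2 := ⟨_, rfl⟩
  rw [← hN] at hs hs0
  refine ⟨![fz/N, -fx/N, -fy/N], ?_, ?_, ?_, ?_⟩
  · simp [mink]; field_simp; linear_combination (-1)*hEuler
  · simp [mink]; field_simp; rw [hs, hN2]
  · rw [hdF]; simp
    have : fz * (fz / N) + fx * (-fx / N) + fy * (-fy / N) = -N := by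
      field_simp; rw [hs, hN2]; ring
    rw [this]; linarith
  · intro T hT
    rw [hdF] at hT
    simp [mink]; field_simp; linear_combination (-1)*hT

private lemma deriv_F_hexp (X ν : V) : HasDerivAt (fun r => F (hexp X ν r)) (dF X ν) 0 := by
  have := hasDeriv_F (hexp_deriv X ν)
  rwa [hexp_zero] at this

private lemma dom_closed : IsClosed Dom :=
  isClosed_le (contF.comp continuous_subtype_val) continuous_const

private lemma mem_interior {X : H2} (h : F X < 0) : X ∈ interior Dom :=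
  (interior_maximal (t := {X : H2 | F X < 0}) (fun Y (hY : F Y < 0) => (le_of_lt hY : F Y ≤ 0))
        (isOpen_lt (contF.comp continuous_subtype_val) continuous_const)) h

private lemma frontier_dom : frontier Dom = {X : H2 | F X = 0} := by
  rw [dom_closed.frontier_eq]
  ext X
  simp only [Set.mem_sdiff, Set.mem_ofPred_eq]
  constructor
  · rintro ⟨h1, h2⟩
    have h1' : F X ≤ 0 := h1
    rcases lt_or_eq_of_le h1' with h | h
    · exact absurd (mem_interior h) h2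
    · exact h
  · intro h
    refine ⟨le_of_eq h, ?_⟩
    intro hint
    obtain ⟨ν, h1, h2, h3, -⟩ := exists_normal X X.2 h
    have h4 := (ev_neg (deriv_F_hexp X ν) (by rw [hexp_zero]; exact h) h3).2
    have hc : Continuous (fun r => (⟨hexp X ν r, hexp_mem X ν X.2 h1 h2 r⟩ : H2)) := by
      apply Continuous.subtype_mk
      unfold hexp
      fun_prop
    have h5 : ∀ᶠ r in 𝓝 (0:ℝ), (⟨hexp X ν r, hexp_mem X ν X.2 h1 h2 r⟩ : H2) ∈ interior Dom := by
      apply hc.continuousAt.eventually_mem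
      apply isOpen_interior.mem_nhds
      convert hint using 1
      exact Subtype.ext (hexp_zero X ν)
    obtain ⟨r, hr1, hr2⟩ := (h4.and (h5.filter_mono nhdsWithin_le_nhds)).exists
    have hr3 : (⟨hexp X ν r, hexp_mem X ν X.2 h1 h2 r⟩ : H2) ∈ Dom := interior_subset hr2
    have hr4 : F (hexp X ν r) ≤ 0 := hr3
    linarith

/-! the boundary curve -/

private noncomputable def uu (t : ℝ) : ℝ := √(100/101) * Real.cos t * √(1 + 3/4 * (Real.sin t)^2)
private noncomputable def vv (t : ℝ) : ℝ := Real.sin t / 2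
private noncomputable def ww (t : ℝ) : ℝ := 1 - (uu t)^2 - (vv t)^2
private noncomputable def gam (t : ℝ) : V := ![1/√(ww t), uu t/√(ww t), vv t/√(ww t)]

private lemma uu_sq (t : ℝ) : (uu t)^2 = (100/101) * (1 - 4*(vv t)^2) * (1+3*(vv t)^2) := by
  unfold uu vv
  rw [mul_pow, mul_pow, Real.sq_sqrt (by norm_num), Real.sq_sqrt (by positivity), Real.cos_sq']
  ring

private lemma vv_sq_le (t : ℝ) : (vv t)^2 ≤ 1/4 := by
  unfold vv
  have := Real.sin_sq_le_one t
  nlinarith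

private lemma ww_eq (t : ℝ) : ww t = (1/101) * (1 - (vv t)^2 + 1200*((vv t)^2)^2) := by
  unfold ww; rw [uu_sq]; ring

private lemma ww_pos (t : ℝ) : 0 < ww t := by
  rw [ww_eq]
  have := vv_sq_le t
  have := sq_nonneg (vv t)
  nlinarith [sq_nonneg ((vv t)^2)]

private lemma gam_mem (t : ℝ) : mink (gam t) (gam t) = -1 ∧ 0 < gam t 0 := by
  have h := ww_pos t
  have hs : √(ww t) ^ 2 = ww t := Real.sq_sqrt h.le
  have hs0 : 0 < √(ww t) := Real.sqrt_pos.2 h
  constructor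
  · simp [mink, gam]
    field_simp
    rw [hs]; unfold ww; ring
  · simp [gam]; exact h

private lemma gam_F (t : ℝ) : F (gam t) = 0 := by
  have h := ww_pos t
  have hs : √(ww t) ^ 2 = ww t := Real.sq_sqrt h.le
  have hs0 : 0 < √(ww t) := Real.sqrt_pos.2 h
  simp [F, gam]
  field_simp
  have := uu_sq t
  linear_combination 101 * this

private lemma h_smooth : ContDiff ℝ ((⊤ : ℕ∞) : WithTop ℕ∞)
    (fun t : ℝ => √(1 + 3/4 * (Real.sin t)^2)) := by
  apply ContDiff.sqrt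
  · exact contDiff_const.add (contDiff_const.mul (Real.contDiff_sin.pow 2))
  · intro t; positivity

private lemma uu_smooth : ContDiff ℝ ((⊤ : ℕ∞) : WithTop ℕ∞) uu :=
  (contDiff_const.mul Real.contDiff_cos).mul h_smooth

private lemma vv_smooth : ContDiff ℝ ((⊤ : ℕ∞) : WithTop ℕ∞) vv :=
  Real.contDiff_sin.div_const 2

private lemma ww_smooth : ContDiff ℝ ((⊤ : ℕ∞) : WithTop ℕ∞) ww :=
  (contDiff_const.sub (uu_smooth.pow 2)).sub (vv_smooth.pow 2)

private lemma sqw_smooth : ContDiff ℝ ((⊤ : ℕ∞) : WithTop ℕ∞) (fun t => √(ww t)) :=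
  ww_smooth.sqrt (fun t => (ww_pos t).ne')

private lemma gam_smooth : ContDiff ℝ ((⊤ : ℕ∞) : WithTop ℕ∞) gam := by
  rw [contDiff_pi]
  have hne : ∀ t, √(ww t) ≠ 0 := fun t => (Real.sqrt_pos.2 (ww_pos t)).ne'
  intro i
  fin_cases i
  · exact contDiff_const.div sqw_smooth hne
  · exact uu_smooth.div sqw_smooth hne
  · exact vv_smooth.div sqw_smooth hne

private lemma gam_u (t : ℝ) : gam t 1 / gam t 0 = uu t := by
  have hs0 : 0 < √(ww t) := Real.sqrt_pos.2 (ww_pos t)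
  simp [gam]; field_simp

private lemma gam_v (t : ℝ) : gam t 2 / gam t 0 = vv t := by
  have hs0 : 0 < √(ww t) := Real.sqrt_pos.2 (ww_pos t)
  simp [gam]; field_simp

private lemma gam_hasDeriv (t : ℝ) : HasDerivAt gam (deriv gam t) t :=
  ((gam_smooth.differentiable (by simp)) t).hasDerivAt

private lemma gam_hasDeriv2 (t : ℝ) : HasDerivAt (deriv gam) (deriv (deriv gam) t) t := by
  have h : ContDiff ℝ 1 (deriv gam) := by
    have h2 : ContDiff ℝ (1 + 1) gam := by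
      have h3 := contDiff_infty.1 gam_smooth 2
      have e : ((2:ℕ) : WithTop ℕ∞) = 1 + 1 := by norm_num
      rwa [e] at h3
    exact (contDiff_succ_iff_deriv.1 h2).2.2
  exact ((h.differentiable (by simp)) t).hasDerivAt

private lemma gam_regular (t : ℝ) : deriv gam t ≠ 0 := by
  intro h0
  have h := gam_hasDeriv t
  rw [h0] at h
  have k0 := (hasDerivAt_pi.1 h) 0
  have k1 := (hasDerivAt_pi.1 h) 1
  have k2 := (hasDerivAt_pi.1 h) 2
  have hne : gam t 0 ≠ 0 := (gam_mem t).2.ne'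
  have eu : HasDerivAt uu 0 t := by
    have := k1.div k0 hne
    have e : (fun s => gam s 1 / gam s 0) = uu := funext gam_u
    have t2 : HasDerivAt (fun s => gam s 1 / gam s 0) 0 t := by
      refine HasDerivAt.congr_deriv (f := fun s => gam s 1 / gam s 0) this ?_
      simp
    rwa [e] at t2
  have ev : HasDerivAt vv 0 t := by
    have := k2.div k0 hne
    have e : (fun s => gam s 2 / gam s 0) = vv := funext gam_v
    have t2 : HasDerivAt (fun s => gam s 2 / gam s 0) 0 t := by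
      refine HasDerivAt.congr_deriv (f := fun s => gam s 2 / gam s 0) this ?_
      simp
    rwa [e] at t2
  have ev' : HasDerivAt vv (Real.cos t / 2) t := (Real.hasDerivAt_sin t).div_const 2
  have hc : Real.cos t = 0 := by
    have := ev'.unique ev
    linarith
  obtain ⟨d, hd⟩ : ∃ d, HasDerivAt (fun t : ℝ => √(1 + 3/4 * (Real.sin t)^2)) d t :=
    ⟨_, ((h_smooth.differentiable (by simp)) t).hasDerivAt⟩
  have eu' := ((Real.hasDerivAt_cos t).const_mul (√(100/101))).mul hd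
  have eu2 : HasDerivAt uu _ t := eu'
  have := eu2.unique eu
  rw [hc] at this
  have hs : Real.sin t ^ 2 = 1 := by
    have := Real.sin_sq_add_cos_sq t
    rw [hc] at this; linarith
  have p1 : 0 < √(100/101 : ℝ) := Real.sqrt_pos.2 (by norm_num)
  have p2 : 0 < √(1 + 3/4 * (Real.sin t)^2) := Real.sqrt_pos.2 (by positivity)
  have : √(100/101) * Real.sin t * √(1 + 3/4 * (Real.sin t)^2) = 0 := by
    linarith
  rcases mul_eq_zero.1 this with h1 | h1
  · rcases mul_eq_zero.1 h1 with h2 | h2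
    · exact p1.ne' h2
    · rw [h2] at hs; norm_num at hs
  · exact p2.ne' h1

private lemma gam_periodic (t : ℝ) : gam (t + 2 * Real.pi) = gam t := by
  simp [gam, ww, uu, vv]

private lemma gam_inj : InjOn gam (Ico 0 (2 * Real.pi)) := by
  intro s hs t ht hst
  have hu : uu s = uu t := by rw [← gam_u, ← gam_u, hst]
  have hv : vv s = vv t := by rw [← gam_v, ← gam_v, hst]
  have h1 : Real.sin s = Real.sin t := by unfold vv at hv; linarith
  have h2 : Real.cos s = Real.cos t := by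
    unfold uu at hu
    rw [h1] at hu
    have p1 : 0 < √(100/101 : ℝ) := Real.sqrt_pos.2 (by norm_num)
    have p2 : 0 < √(1 + 3/4 * (Real.sin t)^2) := Real.sqrt_pos.2 (by positivity)
    have h3 := mul_right_cancel₀ p2.ne' hu
    exact mul_left_cancel₀ p1.ne' h3
  have h3 := Real.Angle.cos_sin_inj h2 h1
  rw [Real.Angle.angle_eq_iff_two_pi_dvd_sub] at h3
  obtain ⟨k, hk⟩ := h3
  have hpi := Real.pi_pos
  have k1 : (k:ℝ) < 1 := by
    by_contra h
    push Not at h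
    nlinarith [hs.1, hs.2, ht.1, ht.2]
  have k2 : (-1:ℝ) < k := by
    by_contra h
    push Not at h
    nlinarith [hs.1, hs.2, ht.1, ht.2]
  have k3 : k = 0 := by
    have a : k < 1 := by exact_mod_cast k1
    have b : -1 < k := by exact_mod_cast k2
    omega
  rw [k3] at hk
  simp at hk
  linarith

private lemma gam_range : range gam = (fun X : H2 => (X : V)) '' frontier Dom := by
  rw [frontier_dom]
  ext X
  constructor
  · rintro ⟨t, rfl⟩
    exact ⟨⟨gam t, gam_mem t⟩, gam_F t, rfl⟩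
  · rintro ⟨⟨Y, hY⟩, hF, rfl⟩
    have hF' : F Y = 0 := hF
    show Y ∈ range gam
    obtain ⟨hm, hz⟩ := hY
    have hm' : Y 1 * Y 1 + Y 2 * Y 2 - Y 0 * Y 0 = -1 := hm
    have hF1 : 12*(Y 2)^4 + (101/100)*(Y 1)^2*(Y 0)^2 + (Y 2)^2*(Y 0)^2 - (Y 0)^4 = 0 := hF'
    obtain ⟨u, hu⟩ : ∃ u, u = Y 1 / Y 0 := ⟨_, rfl⟩
    obtain ⟨v, hv⟩ : ∃ v, v = Y 2 / Y 0 := ⟨_, rfl⟩
    have hY1 : Y 1 = u * Y 0 := by rw [hu]; field_simp
    have hY2 : Y 2 = v * Y 0 := by rw [hv]; field_simp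
    have hrel : 12*v^4 + (101/100)*u^2 + v^2 = 1 := by
      rw [hY1, hY2] at hF1
      have : (Y 0)^4 * (12*v^4 + (101/100)*u^2 + v^2 - 1) = 0 := by linear_combination hF1
      rcases mul_eq_zero.1 this with h | h
      · exact absurd h (by positivity)
      · linarith
    have hw : (Y 0)^2 * (1 - u^2 - v^2) = 1 := by
      rw [hY1, hY2] at hm'; linear_combination (-1)*hm'
    have hv4 : v^2 ≤ 1/4 := by
      by_contra h; push Not at h; nlinarith [sq_nonneg u, sq_nonneg v]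
    -- find the parameter
    obtain ⟨g, hg⟩ : ∃ g, g = √(1+3*v^2) := ⟨_, rfl⟩
    have hg0 : 0 < g := by rw [hg]; exact Real.sqrt_pos.2 (by positivity)
    have hg2 : g^2 = 1+3*v^2 := by rw [hg]; exact Real.sq_sqrt (by positivity)
    obtain ⟨κ, hκ⟩ : ∃ κ, κ = √(100/101 : ℝ) := ⟨_, rfl⟩
    have hκ0 : 0 < κ := by rw [hκ]; exact Real.sqrt_pos.2 (by norm_num)
    have hκ2 : κ^2 = 100/101 := by rw [hκ]; exact Real.sq_sqrt (by norm_num)
    have hcs : (u/(κ*g))^2 + (2*v)^2 = 1 := by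
      have : (u/(κ*g))^2 = 1 - 4*v^2 := by
        rw [div_pow, mul_pow, hκ2, hg2]
        have : u^2 = (100/101)*(1+3*v^2)*(1-4*v^2) := by linear_combination (100/101)*hrel
        rw [this]; field_simp
      rw [this]; ring
    obtain ⟨t, ht1, ht2⟩ : ∃ t, Real.cos t = u/(κ*g) ∧ Real.sin t = 2*v := by
      have hb : |u/(κ*g)| ≤ 1 := by
        rw [← sq_le_one_iff_abs_le_one]; nlinarith [sq_nonneg (2*v)]
      have hb' := abs_le.1 hb
      rcases le_total 0 v with h | h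
      · refine ⟨Real.arccos (u/(κ*g)), Real.cos_arccos hb'.1 hb'.2, ?_⟩
        rw [Real.sin_arccos]
        rw [show 1 - (u/(κ*g))^2 = (2*v)^2 by linarith]
        exact Real.sqrt_sq (by linarith)
      · refine ⟨-Real.arccos (u/(κ*g)), ?_, ?_⟩
        · rw [Real.cos_neg]; exact Real.cos_arccos hb'.1 hb'.2
        · rw [Real.sin_neg, Real.sin_arccos]
          rw [show 1 - (u/(κ*g))^2 = (-(2*v))^2 by nlinarith]
          rw [Real.sqrt_sq (by linarith)]; ring
    refine ⟨t, ?_⟩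
    have e2 : vv t = v := by unfold vv; rw [ht2]; ring
    have e1 : uu t = u := by
      unfold uu
      rw [ht1, ht2, ← hκ, show (1 + 3/4*(2*v)^2 : ℝ) = 1+3*v^2 by ring, ← hg]
      field_simp
    have e3 : √(ww t) = 1 / Y 0 := by
      have : ww t = (1/Y 0)^2 := by
        unfold ww; rw [e1, e2]
        field_simp
        linear_combination hw
      rw [this]; exact Real.sqrt_sq (by positivity)
    funext i
    fin_cases i
    · show 1/√(ww t) = Y 0
      rw [e3]; field_simp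
    · show uu t/√(ww t) = Y 1
      rw [e3, e1, hY1]; field_simp
    · show vv t/√(ww t) = Y 2
      rw [e3, e2, hY2]; field_simp

private lemma gam_T (t : ℝ) : mink (gam t) (deriv gam t) = 0 := by
  have h := hasDeriv_mink (gam_hasDeriv t) (gam_hasDeriv t)
  have e : (fun s => mink (gam s) (gam s)) = fun _ => (-1:ℝ) := funext (fun s => (gam_mem s).1)
  rw [e] at h
  have := h.unique (hasDerivAt_const t (-1:ℝ))
  rw [mink_comm (deriv gam t)] at this
  linarith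

private lemma gam_dF (t : ℝ) : dF (gam t) (deriv gam t) = 0 := by
  have h := hasDeriv_F (gam_hasDeriv t)
  have e : (fun s => F (gam s)) = fun _ => (0:ℝ) := funext gam_F
  rw [e] at h
  exact h.unique (hasDerivAt_const t (0:ℝ))

private lemma gam_hs (t : ℝ) :
    hs (gam t) (deriv gam t) + dF (gam t) (deriv (deriv gam) t) = 0 := by
  have h := hasDeriv_dF (gam_hasDeriv t) (gam_hasDeriv2 t)
  have e : (fun s => dF (gam s) (deriv gam s)) = fun _ => (0:ℝ) := funext gam_dF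
  rw [e] at h
  exact h.unique (hasDerivAt_const t (0:ℝ))

private lemma inward_dF {t : ℝ} {ν : V} (h : IsInwardNormal Dom gam t ν) :
    dF (gam t) ν ≤ 0 := by
  apply nonpos_of_ev (deriv_F_hexp (gam t) ν) (by rw [hexp_zero]; exact gam_F t)
  filter_upwards [h.inward] with r hr
  obtain ⟨Y, hY, hYe⟩ := hr
  have : Y ∈ Dom := interior_subset hY
  have h2 : F Y ≤ 0 := this
  rwa [hYe] at h2

private lemma curv_both {t : ℝ} {ν : V} (h : IsInwardNormal Dom gam t ν) :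
    1/4 ≤ curv gam t ν ∧ curv gam t ν ≤ 17/10 := by
  have hT : ¬ (deriv gam t 0 = 0 ∧ deriv gam t 1 = 0 ∧ deriv gam t 2 = 0) := by
    rintro ⟨a, b, c⟩
    apply gam_regular t
    funext i
    fin_cases i
    · exact a
    · exact b
    · exact c
  have hA := gam_hs t
  have hD := gam_dF t
  have hG := gam_T t
  have hI := inward_dF h
  have hm := gam_mem t
  have hF := gam_F t
  have h1 := h.tangent
  have h2 := h.normal
  have h3 := h.unit
  simp only [hs, dF, mink, F] at hA hD hG hI hm hF h1 h2 h3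
  obtain ⟨k1, k2, k3⟩ := curv_bounds (gam t 0) (gam t 1) (gam t 2) (deriv gam t 0) (deriv gam t 1)
    (deriv gam t 2) (deriv (deriv gam) t 0) (deriv (deriv gam) t 1) (deriv (deriv gam) t 2)
    (ν 0) (ν 1) (ν 2) hm.2 hm.1 hF hT hG hD h1 h2 h3 hI hA
  unfold curv mink
  rw [le_div_iff₀ k1, div_le_iff₀ k1]
  exact ⟨k2, k3⟩

private lemma exists_inward (t : ℝ) : ∃ ν, IsInwardNormal Dom gam t ν := by
  obtain ⟨ν, h1, h2, h3, h4⟩ := exists_normal (gam t) (gam_mem t) (gam_F t)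
  refine ⟨ν, h1, h4 _ (gam_dF t), h2, ?_⟩
  have h5 := (ev_neg (deriv_F_hexp (gam t) ν) (by rw [hexp_zero]; exact gam_F t) h3).1
  filter_upwards [h5] with r hr
  exact ⟨⟨hexp (gam t) ν r, hexp_mem (gam t) ν (gam_mem t) h1 h2 r⟩, mem_interior hr, rfl⟩

/-! convexity -/

private lemma F_le_iff (X : V) (hz : 0 < X 0) :
    F X ≤ 0 ↔ 12*(X 2/X 0)^4 + (101/100)*(X 1/X 0)^2 + (X 2/X 0)^2 ≤ 1 := by
  have e : F X = (X 0)^4 * (12*(X 2/X 0)^4 + (101/100)*(X 1/X 0)^2 + (X 2/X 0)^2 - 1) := by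
    unfold F; field_simp
  rw [e]
  have h4 : 0 < (X 0)^4 := by positivity
  constructor
  · intro h
    by_contra hc
    push Not at hc
    have : 0 < (X 0)^4 * (12*(X 2/X 0)^4 + (101/100)*(X 1/X 0)^2 + (X 2/X 0)^2 - 1) :=
      mul_pos h4 (by linarith)
    linarith
  · intro h
    exact mul_nonpos_of_nonneg_of_nonpos h4.le (by linarith)

private lemma F_comb (X Y Z : V) (hX : 0 < X 0) (hY : 0 < Y 0) (a b : ℝ) (ha : 0 ≤ a) (hb : 0 ≤ b)
    (hZ : Z = a • X + b • Y) (hZ0 : 0 < Z 0) (h1 : F X ≤ 0) (h2 : F Y ≤ 0) : F Z ≤ 0 := by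
  rw [F_le_iff X hX] at h1
  rw [F_le_iff Y hY] at h2
  rw [F_le_iff Z hZ0]
  have z0 : Z 0 = a * X 0 + b * Y 0 := by rw [hZ]; simp
  have z1 : Z 1 = a * X 1 + b * Y 1 := by rw [hZ]; simp
  have z2 : Z 2 = a * X 2 + b * Y 2 := by rw [hZ]; simp
  obtain ⟨α, hα⟩ : ∃ α, α = a * X 0 / Z 0 := ⟨_, rfl⟩
  obtain ⟨β, hβ⟩ : ∃ β, β = b * Y 0 / Z 0 := ⟨_, rfl⟩
  have hα0 : 0 ≤ α := by rw [hα]; positivity
  have hβ0 : 0 ≤ β := by rw [hβ]; positivity
  have hαβ : α + β = 1 := by rw [hα, hβ, ← add_div, ← z0]; field_simp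
  have e1 : Z 1 / Z 0 = α * (X 1/X 0) + β * (Y 1/Y 0) := by
    rw [hα, hβ, z1]; field_simp
  have e2 : Z 2 / Z 0 = α * (X 2/X 0) + β * (Y 2/Y 0) := by
    rw [hα, hβ, z2]; field_simp
  rw [e1, e2]
  have c4 := (Even.convexOn_pow (𝕜 := ℝ) (n := 4) ⟨2, rfl⟩).2 (mem_univ (X 2/X 0))
    (mem_univ (Y 2/Y 0)) hα0 hβ0 hαβ
  have c2 := (Even.convexOn_pow (𝕜 := ℝ) (n := 2) ⟨1, rfl⟩).2 (mem_univ (X 2/X 0))
    (mem_univ (Y 2/Y 0)) hα0 hβ0 hαβ
  have c1 := (Even.convexOn_pow (𝕜 := ℝ) (n := 2) ⟨1, rfl⟩).2 (mem_univ (X 1/X 0))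
    (mem_univ (Y 1/Y 0)) hα0 hβ0 hαβ
  simp only [smul_eq_mul] at c4 c2 c1
  nlinarith [mul_le_mul_of_nonneg_left h1 hα0, mul_le_mul_of_nonneg_left h2 hβ0]

private lemma one_le_neg_mink (X Y : V) (hX : mink X X = -1 ∧ 0 < X 0)
    (hY : mink Y Y = -1 ∧ 0 < Y 0) : 1 ≤ -(mink X Y) ∧ (-(mink X Y) = 1 → X = Y) := by
  obtain ⟨hX1, hX0⟩ := hX
  obtain ⟨hY1, hY0⟩ := hY
  simp only [mink] at hX1 hY1 ⊢
  have key : (X 0 * Y 0)^2 = (1 + X 1 * Y 1 + X 2 * Y 2)^2 + ((X 1 - Y 1)^2 + (X 2 - Y 2)^2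
      + (X 1 * Y 2 - X 2 * Y 1)^2) := by
    have a : (X 0)^2 = 1 + (X 1)^2 + (X 2)^2 := by linarith
    have b : (Y 0)^2 = 1 + (Y 1)^2 + (Y 2)^2 := by linarith
    rw [mul_pow, a, b]; ring
  have hp : 0 < X 0 * Y 0 := by positivity
  have h1 : 1 + X 1 * Y 1 + X 2 * Y 2 ≤ X 0 * Y 0 := by
    by_contra hc
    push Not at hc
    have h5 : 0 < (1 + X 1 * Y 1 + X 2 * Y 2 - X 0 * Y 0) * (1 + X 1 * Y 1 + X 2 * Y 2 + X 0 * Y 0) :=
      mul_pos (by linarith) (by linarith)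
    nlinarith [sq_nonneg (X 1 - Y 1), sq_nonneg (X 2 - Y 2), sq_nonneg (X 1 * Y 2 - X 2 * Y 1)]
  refine ⟨by linarith, ?_⟩
  intro h
  have h2 : X 0 * Y 0 = 1 + X 1 * Y 1 + X 2 * Y 2 := by linarith
  rw [h2] at key
  have h3 : (X 1 - Y 1)^2 + (X 2 - Y 2)^2 + (X 1 * Y 2 - X 2 * Y 1)^2 = 0 := by linarith
  have e1 : X 1 = Y 1 := by
    have : (X 1 - Y 1)^2 = 0 := by nlinarith [sq_nonneg (X 1 - Y 1), sq_nonneg (X 2 - Y 2), sq_nonneg (X 1 * Y 2 - X 2 * Y 1)]
    have := pow_eq_zero_iff (two_ne_zero) |>.1 this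
    linarith
  have e2 : X 2 = Y 2 := by
    have : (X 2 - Y 2)^2 = 0 := by nlinarith [sq_nonneg (X 1 - Y 1), sq_nonneg (X 2 - Y 2), sq_nonneg (X 1 * Y 2 - X 2 * Y 1)]
    have := pow_eq_zero_iff (two_ne_zero) |>.1 this
    linarith
  have e0 : X 0 = Y 0 := by
    have : (X 0)^2 = (Y 0)^2 := by rw [e1, e2] at hX1; linarith
    exact (pow_left_inj₀ hX0.le hY0.le two_ne_zero).1 this
  funext i
  fin_cases i
  · exact e0
  · exact e1
  · exact e2

private lemma dom_convex : GeodConvex Dom := by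
  intro X hXD Y hYD
  obtain ⟨hC1, hCe⟩ := one_le_neg_mink X Y X.2 Y.2
  obtain ⟨C, hC⟩ : ∃ C, C = -(mink X Y) := ⟨_, rfl⟩
  rw [← hC] at hC1 hCe
  have hd : hdist X Y = Real.arcosh C := by unfold hdist; rw [hC]
  rw [hd]
  rcases eq_or_lt_of_le hC1 with h | h
  · have hXY : (X : V) = Y := hCe h.symm
    have hl : Real.arcosh C = 0 := by rw [← h]; simp
    rw [hl]
    refine ⟨fun _ => X, rfl, Subtype.ext hXY, fun s _ => hXD, ?_⟩
    intro s hs t ht
    have hs0 : s = 0 := le_antisymm hs.2 hs.1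
    have ht0 : t = 0 := le_antisymm ht.2 ht.1
    rw [hs0, ht0]
    unfold hdist
    rw [X.2.1]; simp
  · obtain ⟨l, hl⟩ : ∃ l, l = Real.arcosh C := ⟨_, rfl⟩
    rw [← hl]
    have hl0 : 0 < l := by rw [hl]; exact Real.arcosh_pos h
    have hcosh : Real.cosh l = C := by rw [hl]; exact Real.cosh_arcosh hC1
    obtain ⟨S, hS⟩ : ∃ S, S = Real.sinh l := ⟨_, rfl⟩
    have hS0 : 0 < S := by rw [hS]; exact Real.sinh_pos_iff.2 hl0
    have hCS : C^2 = S^2 + 1 := by rw [← hcosh, hS]; exact Real.cosh_sq l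
    obtain ⟨ν, hν⟩ : ∃ ν : V, ν = S⁻¹ • ((Y : V) - C • (X : V)) := ⟨_, rfl⟩
    have hXX := X.2.1
    have hYY := Y.2.1
    have h1 : mink ν X = 0 := by
      have : mink ν X = S⁻¹ * (mink X Y - C * mink X X) := by
        rw [hν]; simp [mink]; ring
      rw [this, hXX, hC]; ring
    have h2 : mink ν ν = 1 := by
      have : mink ν ν = S⁻¹^2 * (mink Y Y - 2 * C * mink X Y + C^2 * mink X X) := by
        rw [hν]; simp [mink]; ring
      rw [this, hXX, hYY]
      have e : mink X Y = -C := by rw [hC]; ring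
      rw [e]
      have : (-1 - 2 * C * -C + C^2 * -1) = S^2 := by linarith
      rw [this]; field_simp
    refine ⟨fun s => ⟨hexp X ν s, hexp_mem X ν X.2 h1 h2 s⟩, ?_, ?_, ?_, ?_⟩
    · exact Subtype.ext (hexp_zero X ν)
    · apply Subtype.ext
      show hexp X ν l = Y
      unfold hexp
      rw [hcosh, ← hS, hν, smul_smul, mul_inv_cancel₀ hS0.ne', one_smul]
      simp
    · intro s hs
      show F (hexp X ν s) ≤ 0
      refine F_comb X Y _ X.2.2 Y.2.2 (Real.sinh (l - s) / S) (Real.sinh s / S) ?_ ?_ ?_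
        (hexp_mem X ν X.2 h1 h2 s).2 hXD hYD
      · apply div_nonneg _ hS0.le
        exact Real.sinh_nonneg_iff.2 (by linarith [hs.2])
      · apply div_nonneg _ hS0.le
        exact Real.sinh_nonneg_iff.2 hs.1
      · unfold hexp
        rw [Real.sinh_sub, hcosh, ← hS, hν]
        funext i
        simp
        field_simp
        ring
    · intro s _ t _
      exact hexp_dist X ν hXX h1 h2 s t

/-! compactness -/

private lemma H2_closed : IsClosed {X : V | mink X X = -1 ∧ 0 < X 0} := by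
  have e : {X : V | mink X X = -1 ∧ 0 < X 0} = {X : V | mink X X = -1 ∧ 1 ≤ X 0} := by
    ext X
    constructor
    · rintro ⟨h1, h2⟩
      refine ⟨h1, ?_⟩
      simp only [mink] at h1
      nlinarith [sq_nonneg (X 1), sq_nonneg (X 2)]
    · rintro ⟨h1, h2⟩
      exact ⟨h1, by linarith⟩
  rw [e]
  apply IsClosed.inter
  · exact isClosed_eq (by unfold mink; fun_prop) continuous_const
  · exact isClosed_le continuous_const (continuous_apply 0)

private lemma dom_compact : IsCompact Dom := by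
  have hemb : Topology.IsClosedEmbedding (Subtype.val : H2 → V) :=
    H2_closed.isClosedEmbedding_subtypeVal
  have hK : IsCompact ((Subtype.val : H2 → V) ⁻¹' (Metric.closedBall 0 12)) :=
    hemb.isCompact_preimage (isCompact_closedBall 0 12)
  apply hK.of_isClosed_subset dom_closed
  intro X hX
  have hF : F X ≤ 0 := hX
  obtain ⟨hm, hz⟩ := X.2
  simp only [mink] at hm
  simp only [F] at hF
  rw [mem_preimage, mem_closedBall_zero_iff, pi_norm_le_iff_of_nonneg (by norm_num)]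
  obtain ⟨x, hx⟩ : ∃ x, x = (X : V) 1 := ⟨_, rfl⟩
  obtain ⟨y, hy⟩ : ∃ y, y = (X : V) 2 := ⟨_, rfl⟩
  obtain ⟨z, hz'⟩ : ∃ z, z = (X : V) 0 := ⟨_, rfl⟩
  rw [← hx, ← hy, ← hz'] at hm hF
  rw [← hz'] at hz
  have hz2 : z^2 = 1 + x^2 + y^2 := by linarith
  have e : 12*y^4 + 101/100*x^2*z^2 + y^2*z^2 - z^4 = 12*y^4 + (x^2/100 - 1) * z^2 := by
    have : z^4 = z^2 * (1 + x^2+y^2) := by rw [← hz2]; ring
    rw [this]; ring
  have hz2p : 0 < z^2 := by positivity
  have hx2 : x^2 ≤ 100 := by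
    by_contra h; push Not at h
    rw [e] at hF
    have : 0 < (x^2/100 - 1) * z^2 := mul_pos (by linarith) hz2p
    have : 0 ≤ y^4 := by positivity
    linarith
  have hy2 : y^2 ≤ 34 := by
    have : (z^2 - 4*y^2)*(z^2+3*y^2) ≥ 0 := by
      nlinarith [mul_nonneg (sq_nonneg x) (sq_nonneg z)]
    have h3 : 0 < z^2 + 3*y^2 := by positivity
    have h4 : 0 ≤ z^2 - 4*y^2 := by
      by_contra h; push Not at h; nlinarith
    linarith
  have hz2' : z^2 ≤ 144 := by linarith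
  intro i
  rw [Real.norm_eq_abs]
  fin_cases i
  · show |(X : V) 0| ≤ 12
    rw [← hz']; apply abs_le_of_sq_le_sq <;> linarith
  · show |(X : V) 1| ≤ 12
    rw [← hx]; apply abs_le_of_sq_le_sq <;> linarith
  · show |(X : V) 2| ≤ 12
    rw [← hy]; apply abs_le_of_sq_le_sq <;> linarith

/-! the ball does not roll -/

private lemma not_rolls (R : ℝ) (hR : 10/17 ≤ R) : ¬ RollsFreely Dom gam R := by
  intro hroll
  obtain ⟨ν, hν⟩ := exists_inward (Real.pi/2)
  have hsub := hroll _ _ hν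
  have hdf := inward_dF hν
  obtain ⟨X, hXdef⟩ : ∃ X, X = gam (Real.pi/2) := ⟨_, rfl⟩
  obtain ⟨T, hTdef⟩ : ∃ T, T = deriv gam (Real.pi/2) := ⟨_, rfl⟩
  have hTX := gam_T (Real.pi/2)
  have hTF := gam_dF (Real.pi/2)
  have hreg := gam_regular (Real.pi/2)
  have hmem := gam_mem (Real.pi/2)
  have hx1 : gam (Real.pi/2) 1 = 0 := by simp [gam, uu]
  have hzy : gam (Real.pi/2) 0 = 2 * gam (Real.pi/2) 2 := by
    simp [gam, vv]; field_simp
  obtain ⟨n1, n2, n3, -⟩ := hν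
  rw [← hXdef] at hTX hTF hmem hx1 hzy hdf hsub n1
  rw [← hTdef] at hTX hTF n2 hreg
  have y0 : 0 < X 2 := by have := hmem.2; rw [hzy] at this; linarith
  have hm := hmem.1
  simp only [mink] at hm hTX n1 n2 n3
  simp only [dF] at hTF hdf
  rw [hx1, hzy] at hm hTX hTF n1 hdf
  have T0 : T 2 = 2 * T 0 := by
    have : X 2 * (T 2 - 2 * T 0) = 0 := by linear_combination hTX
    rcases mul_eq_zero.1 this with h | h
    · exact absurd h y0.ne'
    · linarith
  have T00 : T 0 = 0 := by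
    rw [T0] at hTF
    have : (X 2)^3 * T 0 = 0 := by linear_combination (1/84)*hTF
    rcases mul_eq_zero.1 this with h | h
    · exact absurd h (by positivity)
    · exact h
  have T1 : T 1 ≠ 0 := by
    intro h
    apply hreg
    funext i
    fin_cases i
    · exact T00
    · exact h
    · show T 2 = 0
      rw [T0, T00]; ring
  have ν1 : ν 1 = 0 := by
    rw [T0, T00] at n2
    have : ν 1 * T 1 = 0 := by linear_combination n2
    rcases mul_eq_zero.1 this with h | h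
    · exact h
    · exact absurd h T1
  have ν2 : ν 2 = 2 * ν 0 := by
    have : X 2 * (ν 2 - 2 * ν 0) = 0 := by linear_combination n1
    rcases mul_eq_zero.1 this with h | h
    · exact absurd h y0.ne'
    · linarith
  rw [ν1, ν2] at n3 hdf
  have hy3 : 3 * (X 2)^2 = 1 := by linear_combination (-1)*hm
  have hν3 : 3 * (ν 0)^2 = 1 := by linear_combination n3
  have hν0 : ν 0 ≤ 0 := by
    by_contra h; push Not at h
    have : 0 < (X 2)^3 * ν 0 := by positivity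
    nlinarith
  have hνy : ν 0 = - X 2 := by
    have : (ν 0 - X 2) * (ν 0 + X 2) = 0 := by linear_combination (1/3)*hν3 - (1/3)*hy3
    rcases mul_eq_zero.1 this with h | h
    · linarith
    · linarith
  -- the far point of the ball
  have hmemν := hexp_mem X ν hmem (by simp only [mink]; rw [hx1, hzy, ν1, ν2]; ring)
    (by simp only [mink]; rw [ν1, ν2]; linear_combination hν3) (2*R)
  have hdist' : hdist (hexp X ν R) (hexp X ν (2*R)) = |R - 2*R| :=
    hexp_dist X ν hmem.1 (by simp only [mink]; rw [hx1, hzy, ν1, ν2]; ring)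
    (by simp only [mink]; rw [ν1, ν2]; linear_combination hν3) R (2*R)
  have hR0 : 0 < R := by linarith
  have hin : (⟨hexp X ν (2*R), hmemν⟩ : H2) ∈ hball (hexp X ν R) R := by
    show hdist (hexp X ν R) (hexp X ν (2*R)) ≤ R
    rw [hdist', show R - 2*R = -R by ring, abs_neg, abs_of_pos hR0]
  have hD := hsub hin
  have hFle : F (hexp X ν (2*R)) ≤ 0 := hD
  obtain ⟨c, hc⟩ : ∃ c, c = Real.cosh (2*R) := ⟨_, rfl⟩
  obtain ⟨s, hs⟩ : ∃ s, s = Real.sinh (2*R) := ⟨_, rfl⟩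
  have e0 : hexp X ν (2*R) 0 = X 2 * (2*c - s) := by
    simp only [hexp, Pi.add_apply, Pi.smul_apply, smul_eq_mul]; rw [← hc, ← hs, hzy, hνy]; ring
  have e1 : hexp X ν (2*R) 1 = 0 := by
    simp only [hexp, Pi.add_apply, Pi.smul_apply, smul_eq_mul]; rw [hx1, ν1]; ring
  have e2 : hexp X ν (2*R) 2 = X 2 * (c - 2*s) := by
    simp only [hexp, Pi.add_apply, Pi.smul_apply, smul_eq_mul]; rw [← hc, ← hs, ν2, hνy]; ring
  have hFv : F (hexp X ν (2*R)) = (X 2)^4 * ((5*s - 4*c) * (3*s)) * (3*(c-2*s)^2 + (2*c-s)^2) := by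
    unfold F; rw [e0, e1, e2]; ring
  have hs0 : 0 < s := by rw [hs]; exact Real.sinh_pos_iff.2 (by linarith)
  have hexp9 : 9 < Real.exp (2*R) * Real.exp (2*R) := by
    rw [← Real.exp_add]
    have h1 : Real.exp (40/17) ≤ Real.exp (2*R + 2*R) := Real.exp_le_exp.2 (by linarith)
    have h2 : Real.exp (40/17) = Real.exp 1 * Real.exp 1 * Real.exp (6/17) := by
      rw [← Real.exp_add, ← Real.exp_add]; norm_num
    have h3 : (2.7182818283 : ℝ) < Real.exp 1 := Real.exp_one_gt_d9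
    have h4 : (6/17 : ℝ) + 1 ≤ Real.exp (6/17) := Real.add_one_le_exp _
    have h5 : (9:ℝ) < 2.7182818283 * 2.7182818283 * (6/17+1) := by norm_num
    have h6 : (2.7182818283 * 2.7182818283 * (6/17+1) : ℝ) ≤ Real.exp 1 * Real.exp 1 * Real.exp (6/17) := by
      gcongr
    linarith
  have h54 : 0 < 5*s - 4*c := by
    rw [hs, hc, Real.sinh_eq, Real.cosh_eq]
    have hp := Real.exp_pos (2*R)
    have hm2 : Real.exp (-(2*R)) * Real.exp (2*R) = 1 := by rw [← Real.exp_add]; simp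
    have : 0 < Real.exp (2*R) * (5*((Real.exp (2*R) - Real.exp (-(2*R)))/2)
        - 4*((Real.exp (2*R) + Real.exp (-(2*R)))/2)) := by
      nlinarith
    exact (mul_pos_iff_of_pos_left hp).1 this
  have hpos : 0 < F (hexp X ν (2*R)) := by
    rw [hFv]
    have h7 : 0 < (2*c - s)^2 := by
      have : 0 < 2*c - s := by
        have : s < c := by rw [hs, hc]; exact Real.sinh_lt_cosh _
        linarith
      positivity
    have h8 : 0 < 3*(c-2*s)^2 + (2*c-s)^2 := by positivity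
    positivity
  linarith

/-! the comparison radius -/

private lemma sinh_le_mul_cosh {x : ℝ} (hx : 0 ≤ x) : Real.sinh x ≤ x * Real.cosh x := by
  have hmono : MonotoneOn (fun y : ℝ => y * Real.cosh y - Real.sinh y) (Ici 0) := by
    apply monotoneOn_of_deriv_nonneg (convex_Ici 0)
    · apply Continuous.continuousOn
      exact (continuous_id.mul Real.continuous_cosh).sub Real.continuous_sinh
    · apply Differentiable.differentiableOn
      exact (differentiable_id.mul Real.differentiable_cosh).sub Real.differentiable_sinh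
    · intro y hy
      rw [interior_Ici] at hy
      have hd : HasDerivAt (fun y : ℝ => y * Real.cosh y - Real.sinh y)
          (1 * Real.cosh y + y * Real.sinh y - Real.cosh y) y :=
        ((hasDerivAt_id y).mul (Real.hasDerivAt_cosh y)).sub (Real.hasDerivAt_sinh y)
      rw [hd.deriv]
      have : 0 ≤ y * Real.sinh y := mul_nonneg (le_of_lt hy) (Real.sinh_nonneg_iff.2 (le_of_lt hy))
      linarith
  have := hmono (mem_Ici.2 le_rfl) (mem_Ici.2 hx) hx
  simp at this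
  linarith

private lemma R_ge {c R : ℝ} (hc0 : c ≤ 0) (hR : 0 < R) (h : ct c R = 17/10) : 10/17 ≤ R := by
  unfold ct at h
  have key : 1 / R ≤ 17/10 := by
    rcases eq_or_lt_of_le hc0 with h0 | h0
    · rw [if_pos h0] at h; exact h.le
    · rw [if_neg h0.ne, if_pos h0] at h
      obtain ⟨s, hs⟩ : ∃ s, s = √(-c) := ⟨_, rfl⟩
      have hs0 : 0 < s := by rw [hs]; exact Real.sqrt_pos.2 (by linarith)
      rw [← hs] at h
      have hsR : 0 < s * R := by positivity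
      have hsinh : 0 < Real.sinh (s*R) := Real.sinh_pos_iff.2 hsR
      have h1 := sinh_le_mul_cosh hsR.le
      rw [← h, div_le_div_iff₀ hR hsinh]
      linarith
  rw [div_le_iff₀ hR] at key
  linarith

private lemma R_exists {c : ℝ} (hc : -(1/16) ≤ c) (hc0 : c ≤ 0) : ∃ R, 0 < R ∧ ct c R = 17/10 := by
  rcases eq_or_lt_of_le hc0 with h0 | h0
  · refine ⟨10/17, by norm_num, ?_⟩
    unfold ct
    rw [if_pos h0]; norm_num
  · obtain ⟨s, hs⟩ : ∃ s, s = √(-c) := ⟨_, rfl⟩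
    have hs0 : 0 < s := by rw [hs]; exact Real.sqrt_pos.2 (by linarith)
    have hs1 : s ≤ 1/4 := by
      rw [hs]; apply Real.sqrt_le_iff.2; constructor
      · norm_num
      · linarith
    obtain ⟨e, he⟩ : ∃ e, e = (17/10 + s)/(17/10 - s) := ⟨_, rfl⟩
    have hd : 0 < 17/10 - s := by linarith
    have he1 : 1 < e := by rw [he, lt_div_iff₀ hd]; linarith
    have hed : e * (17/10 - s) = 17/10 + s := by rw [he]; exact div_mul_cancel₀ _ hd.ne'
    refine ⟨Real.log e / (2*s), div_pos (Real.log_pos he1) (by positivity), ?_⟩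
    unfold ct
    rw [if_neg h0.ne, if_pos h0, ← hs]
    have e1 : s * (Real.log e / (2*s)) = Real.log e / 2 := by field_simp
    rw [e1]
    obtain ⟨w, hw⟩ : ∃ w, w = Real.exp (Real.log e/2) := ⟨_, rfl⟩
    have hw0 : 0 < w := by rw [hw]; exact Real.exp_pos _
    have hww : w * w = e := by
      rw [hw, ← Real.exp_add, add_halves, Real.exp_log (by linarith)]
    have hwi : Real.exp (-(Real.log e/2)) = 1/w := by rw [Real.exp_neg, ← hw]; simp
    rw [Real.cosh_eq, Real.sinh_eq, hwi, ← hw]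
    have hne : w - 1/w ≠ 0 := by
      intro h
      have : w * w = 1 := by field_simp at h; nlinarith
      rw [hww] at this; linarith
    have hne2 : (w - 1/w)/2 ≠ 0 := by
      intro h; apply hne; linarith
    rw [div_eq_iff hne2]
    have : s * (w*w + 1) = 17/10 * (w*w - 1) := by rw [hww]; linarith
    field_simp
    nlinarith

/-- **Counterexample to inner ball rolling under `sec ≤ c`.**
In the hyperbolic plane (`sec = -1`) there are a compact domain `D` with smooth connected boundary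
`γ` and `lam > 0` such that for every `c ∈ [-1/16, 0]`: `sec = -1 ≤ c`, `lam` satisfies the sphere
constraints, `D` is `√(-c)`-convex and `lam`-concave, the radius `R_lam` (`ct_c R = lam`) exists,
and no ball of that radius rolls freely inside `D`. -/
theorem result : ∃ (D : Set H2) (γ : ℝ → V) (lam : ℝ),
    IsSmoothDomain D γ ∧ IsCompact D ∧
    ∀ c ∈ Icc (-(1/16) : ℝ) 0, SphereConstraints c lam ∧
      MuConvex D γ (√(-c)) ∧ LambdaConcave D γ lam ∧
      (∃ R, 0 < R ∧ ct c R = lam) ∧ ∀ R, 0 < R → ct c R = lam → ¬ RollsFreely D γ R := by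
  refine ⟨Dom, gam, 17/10, ⟨dom_closed, ?_, gam_smooth, gam_regular, gam_periodic, gam_inj,
    gam_range, exists_inward⟩, dom_compact, ?_⟩
  · refine ⟨⟨![1, 0, 0], by simp [mink]⟩, mem_interior ?_⟩
    simp [F]
  · intro c hc
    have hs : √(-c) ≤ 1/4 := by
      apply Real.sqrt_le_iff.2; constructor
      · norm_num
      · have := hc.1; linarith
    refine ⟨⟨by norm_num, fun _ => by linarith⟩, ?_, ⟨dom_convex, ?_⟩, R_exists hc.1 hc.2, ?_⟩
    · intro t ν h
      exact hs.trans (curv_both h).1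
    · intro t ν h
      exact (curv_both h).2
    · intro R hR hct
      exact not_rolls R (R_ge hc.2 hR hct)

end Pool.Agent.Results.MP_1c25d9_gt.RollingFails
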